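import Pool.Agent.Q29.NT.Defs

/-!
# The functor category and exactness
-/

open CategoryTheory CategoryTheory.Limits

namespace Q29.NT

/-- The poset `Fin 3 × Fin 3`. -/
def J : Type := Fin 3 × Fin 3

instance : PartialOrder J := inferInstanceAs (PartialOrder (Fin 3 × Fin 3))

instance : Fintype J := inferInstanceAs (Fintype (Fin 3 × Fin 3))

instance : DecidableEq J := inferInstanceAs (DecidableEq (Fin 3 × Fin 3))

instance (i j : J) : Decidable (i ≤ j) :=
  inferInstanceAs (Decidable ((show Fin 3 × Fin 3 from i) ≤ (show Fin 3 × Fin 3 from j)))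

/-- The element `(i, j)` of the poset. -/
def J.mk (i j : Fin 3) : J := (i, j)

/-- The category. -/
abbrev D : Type 1 := J ⥤ ModuleCat.{0} ℤ

/-- The transition maps. -/
def tr (V : D) {i j : J} (h : i ≤ j) : V.obj i →ₗ[ℤ] V.obj j := (V.map (homOfLE h)).hom

theorem tr_tr (V : D) {i j k : J} (h : i ≤ j) (h' : j ≤ k) (x : V.obj i) :
    tr V h' (tr V h x) = tr V (h.trans h') x := by
  unfold tr
  rw [← homOfLE_comp h h', V.map_comp]
  rfl

/-- The components of a natural transformation. -/
def ap {V W : D} (φ : V ⟶ W) (i : J) : V.obj i →ₗ[ℤ] W.obj i := (φ.app i).hom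

theorem ap_tr {V W : D} (φ : V ⟶ W) {i j : J} (h : i ≤ j) (x : V.obj i) :
    ap φ j (tr V h x) = tr W h (ap φ i x) := by
  have h1 := φ.naturality (homOfLE h)
  have h2 := congrArg (fun f => f.hom x) h1
  exact h2

theorem ap_zero_of_comp {V W U : D} {φ : V ⟶ W} {ψ : W ⟶ U} (h : φ ≫ ψ = 0) (i : J)
    (x : V.obj i) : ap ψ i (ap φ i x) = 0 := by
  have h1 := congrArg (fun f => (f.app i).hom x) h
  exact h1

theorem exact_iff (S : ShortComplex D) :
    S.Exact ↔ ∀ j : J, (S.map ((evaluation J (ModuleCat.{0} ℤ)).obj j)).Exact := by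
  constructor
  · intro h j
    exact h.map _
  · intro h
    rw [ShortComplex.exact_iff_isZero_homology]
    refine Functor.isZero _ (fun j => ?_)
    have h1 := (ShortComplex.exact_iff_isZero_homology _).1 (h j)
    exact (S.mapHomologyIso ((evaluation J (ModuleCat.{0} ℤ)).obj j)).isZero_iff.1 h1

theorem exact_elt {S : ShortComplex D} (hS : S.Exact) (j : J) (x : S.X₂.obj j)
    (hx : ap S.g j x = 0) : ∃ y, ap S.f j y = x :=
  ((S.map ((evaluation J (ModuleCat.{0} ℤ)).obj j)).moduleCat_exact_iff.1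
    ((exact_iff S).1 hS j)) x hx

theorem mono_elt {V W : D} (φ : V ⟶ W) [Mono φ] (j : J) : Function.Injective (ap φ j) := by
  have h : Mono (φ.app j) := inferInstance
  exact (ModuleCat.mono_iff_injective _).1 h

theorem epi_elt {V W : D} (φ : V ⟶ W) [Epi φ] (j : J) : Function.Surjective (ap φ j) := by
  have h : Epi (φ.app j) := inferInstance
  exact (ModuleCat.epi_iff_surjective _).1 h

theorem shortExact_of {S : ShortComplex D} (h1 : ∀ j, Function.Injective (ap S.f j))
    (h2 : ∀ j (x : S.X₂.obj j), ap S.g j x = 0 → ∃ y, ap S.f j y = x)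
    (h3 : ∀ j, Function.Surjective (ap S.g j)) : S.ShortExact where
  exact := (exact_iff S).2 (fun j =>
    (S.map ((evaluation J (ModuleCat.{0} ℤ)).obj j)).moduleCat_exact_iff.2 (h2 j))
  mono_f := by
    have : ∀ j, Mono (S.f.app j) := fun j => (ModuleCat.mono_iff_injective _).2 (h1 j)
    exact NatTrans.mono_of_mono_app _
  epi_g := by
    have : ∀ j, Epi (S.g.app j) := fun j => (ModuleCat.epi_iff_surjective _).2 (h3 j)
    exact NatTrans.epi_of_epi_app _

end Q29.NT
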