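import Mathlib

/-!
# `n`-fold torsion-free classes and `K^(n)E`-closed subcategories: definitions
-/

open CategoryTheory

namespace Q29.NT

universe v u

variable {C : Type u} [Category.{v} C] [Abelian C]

/-- The subcategory `F` of `E` is a torsion-free class of the extension-closed subcategory `E` of
the abelian category `C`: it is closed under isomorphisms, under conflations in `E` and under
admissible subobjects in `E`.  The conflations of `E` are the short exact sequences of `C` all of
whose terms are in `E`. -/
structure IsTorsionFreeClass (E F : ObjectProperty C) : Prop where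
  le : F ≤ E
  iso : F.IsClosedUnderIsomorphisms
  ext : ∀ S : ShortComplex C, S.ShortExact → E S.X₁ → E S.X₂ → E S.X₃ →
    F S.X₁ → F S.X₃ → F S.X₂
  sub : ∀ S : ShortComplex C, S.ShortExact → E S.X₁ → E S.X₂ → E S.X₃ → F S.X₂ → F S.X₁

/-- `X` is an `n`-fold torsion-free class of `C`: there is a chain `C = F 0 ⊇ F 1 ⊇ ... ⊇ F n = X`
in which `F (i + 1)` is a torsion-free class of `F i`. -/
def IsNFoldTorsionFree (n : ℕ) (X : ObjectProperty C) : Prop :=
  ∃ F : ℕ → ObjectProperty C, F 0 = ⊤ ∧ F n = X ∧ ∀ i, i < n → IsTorsionFreeClass (F i) (F (i + 1))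

/-- `X` is `K^(n)E`-closed: it is closed under isomorphisms, under extensions, and under
`n`-kernels, i.e. whenever `0 → M → X⁰ → X¹ → ... → Xⁿ` is exact with all `Xⁱ` in `X`, then `M` is
in `X`.  The sequence `M → X⁰ → X¹ → ... → Xⁿ` is a sequence of `n + 1` composable arrows, exact
at `X⁰, ..., Xⁿ⁻¹`, whose first arrow is a monomorphism. -/
structure IsKEClosed (n : ℕ) (X : ObjectProperty C) : Prop where
  iso : X.IsClosedUnderIsomorphisms
  ext : ∀ S : ShortComplex C, S.ShortExact → X S.X₁ → X S.X₃ → X S.X₂
  ker : ∀ S : ComposableArrows C (n + 1), S.Exact → Mono (S.map' 0 1) →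
    (∀ i : Fin (n + 2), i ≠ 0 → X (S.obj i)) → X (S.obj 0)

end Q29.NT
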