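import Pool.Agent.Q29.NT.Cat

/-!
# Interval modules
-/

open CategoryTheory CategoryTheory.Limits

namespace Q29.NT

/-- A convex subset of the poset. -/
structure Cvx where
  /-- the characteristic function -/
  s : J → Bool
  cvx : ∀ i j k : J, i ≤ j → j ≤ k → s i = true → s k = true → s j = true

/-- The values of an interval module: `ℤ` on the subset, `0` outside. -/
def val (b : Bool) : Submodule ℤ ℤ where
  carrier := {x | b = false → x = 0}
  add_mem' := by
    intro x y hx hy h
    rw [hx h, hy h, add_zero]
  zero_mem' := fun _ => rfl
  smul_mem' := by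
    intro c x hx h
    rw [hx h, smul_zero]

theorem val_false {x : val false} : x = 0 := Subtype.ext (x.2 rfl)

/-- Cutting off outside of the subset. -/
def cut (b c : Bool) : val b →ₗ[ℤ] val c where
  toFun x := ⟨if c = true then x.1 else 0, by intro h; rw [if_neg (by rw [h]; simp)]⟩
  map_add' := by
    intro x y
    apply Subtype.ext
    change (if c = true then x.1 + y.1 else 0) = (if c = true then x.1 else 0) +
      (if c = true then y.1 else 0)
    split_ifs <;> simp
  map_smul' := by
    intro r x
    apply Subtype.ext
    change (if c = true then r • x.1 else 0) = r • (if c = true then x.1 else 0)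
    split_ifs <;> simp

theorem cut_cut {b c d : Bool} (h : b = true → d = true → c = true) (x : val b) :
    cut c d (cut b c x) = cut b d x := by
  apply Subtype.ext
  change (if d = true then (if c = true then x.1 else 0) else 0) = if d = true then x.1 else 0
  by_cases hd : d = true
  · rw [if_pos hd, if_pos hd]
    by_cases hb : b = true
    · rw [if_pos (h hb hd)]
    · rw [x.2 (by simpa using hb)]
      split_ifs <;> rfl
  · rw [if_neg hd, if_neg hd]

theorem cut_self {b : Bool} (x : val b) : cut b b x = x := by
  apply Subtype.ext
  change (if b = true then x.1 else 0) = x.1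
  by_cases hb : b = true
  · rw [if_pos hb]
  · rw [if_neg hb, x.2 (by simpa using hb)]

/-- The interval module of a convex subset. -/
def intv (S : Cvx) : D where
  obj j := ModuleCat.of ℤ (val (S.s j))
  map {i j} _ := ModuleCat.ofHom (cut (S.s i) (S.s j))
  map_id j := by
    apply ModuleCat.hom_ext
    ext x
    exact congrArg Subtype.val (cut_self x)
  map_comp {i j k} f g := by
    apply ModuleCat.hom_ext
    ext x
    exact congrArg Subtype.val
      (cut_cut (fun h1 h2 => S.cvx i j k (leOfHom f) (leOfHom g) h1 h2) x).symm

theorem tr_intv (S : Cvx) {i j : J} (h : i ≤ j) (x : val (S.s i)) :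
    tr (intv S) h x = cut (S.s i) (S.s j) x := rfl

/-- The natural maps between interval modules. -/
def imap (S T : Cvx) (h : ∀ i j : J, i ≤ j → S.s i = true → T.s j = true →
    (T.s i = true ↔ S.s j = true)) : intv S ⟶ intv T where
  app j := ModuleCat.ofHom (cut (S.s j) (T.s j))
  naturality {i j} f := by
    apply ModuleCat.hom_ext
    ext x
    apply Subtype.ext
    change (if T.s j = true then (if S.s j = true then x.1 else 0) else 0) =
      (if T.s j = true then (if T.s i = true then x.1 else 0) else 0)
    by_cases hT : T.s j = true
    · rw [if_pos hT, if_pos hT]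
      by_cases hS : S.s i = true
      · have := h i j (leOfHom f) hS hT
        by_cases h1 : T.s i = true
        · rw [if_pos h1, if_pos (this.1 h1)]
        · rw [if_neg h1, if_neg (fun h2 => h1 (this.2 h2))]
      · have hx : x.1 = 0 := x.2 (by simpa using hS)
        rw [hx]
        split_ifs <;> rfl
    · rw [if_neg hT, if_neg hT]

/-- The short exact sequence of interval modules `0 → A → S → B → 0`, where `S` is the disjoint
union of `A` and `B`, and `A` is an upper subset of `S`. -/
theorem exists_ses (A S B : Cvx) (h1 : ∀ i, S.s i = true ↔ (A.s i = true ∨ B.s i = true))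
    (h2 : ∀ i, ¬ (A.s i = true ∧ B.s i = true))
    (h3 : ∀ i j : J, i ≤ j → A.s i = true → S.s j = true → A.s j = true) :
    ∃ E : ShortComplex D, E.ShortExact ∧ E.X₁ = intv A ∧ E.X₂ = intv S ∧ E.X₃ = intv B := by
  have hf : ∀ i j : J, i ≤ j → A.s i = true → S.s j = true →
      (S.s i = true ↔ A.s j = true) := by
    intro i j hij hA hS
    exact ⟨fun _ => h3 i j hij hA hS, fun _ => (h1 i).2 (Or.inl hA)⟩
  have hg : ∀ i j : J, i ≤ j → S.s i = true → B.s j = true →
      (B.s i = true ↔ S.s j = true) := by
    intro i j hij hS hB
    refine ⟨fun _ => (h1 j).2 (Or.inr hB), fun hSj => ?_⟩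
    rcases (h1 i).1 hS with h | h
    · exact absurd ⟨h3 i j hij h hSj, hB⟩ (h2 j)
    · exact h
  have hzero : imap A S hf ≫ imap S B hg = 0 := by
    apply NatTrans.ext
    funext j
    apply ModuleCat.hom_ext
    ext x
    apply Subtype.ext
    change (if B.s j = true then (if S.s j = true then x.1 else 0) else 0) = (0 : ℤ)
    by_cases hB : B.s j = true
    · have hA : A.s j = false := by
        by_contra hA
        exact h2 j ⟨by simpa using hA, hB⟩
      rw [x.2 hA]
      split_ifs <;> rfl
    · rw [if_neg hB]
  refine ⟨ShortComplex.mk (imap A S hf) (imap S B hg) hzero, ?_, rfl, rfl, rfl⟩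
  refine shortExact_of (fun j => ?_) (fun j x hx => ?_) (fun j => ?_)
  · intro x y hxy
    have hxy' : (if S.s j = true then x.1 else 0) = (if S.s j = true then y.1 else 0) :=
      congrArg Subtype.val hxy
    apply Subtype.ext
    by_cases hA : A.s j = true
    · rw [if_pos ((h1 j).2 (Or.inl hA)), if_pos ((h1 j).2 (Or.inl hA))] at hxy'
      exact hxy'
    · rw [x.2 (by simpa using hA), y.2 (by simpa using hA)]
  · have hx' : (if B.s j = true then x.1 else 0) = (0 : ℤ) := congrArg Subtype.val hx
    by_cases hA : A.s j = true
    · refine ⟨⟨x.1, fun h => ?_⟩, ?_⟩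
      · rw [hA] at h; cases h
      · apply Subtype.ext
        change (if S.s j = true then x.1 else 0) = x.1
        rw [if_pos ((h1 j).2 (Or.inl hA))]
    · refine ⟨0, ?_⟩
      rw [map_zero]
      apply Subtype.ext
      change (0 : ℤ) = x.1
      by_cases hB : B.s j = true
      · rw [if_pos hB] at hx'
        exact hx'.symm
      · refine (x.2 ?_).symm
        by_contra hS
        rcases (h1 j).1 (by simpa using hS) with h | h
        · exact hA h
        · exact hB h
  · intro y
    by_cases hB : B.s j = true
    · refine ⟨⟨y.1, fun h => ?_⟩, ?_⟩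
      · have := (h1 j).2 (Or.inr hB)
        rw [this] at h; cases h
      · apply Subtype.ext
        change (if B.s j = true then y.1 else 0) = y.1
        rw [if_pos hB]
    · refine ⟨0, ?_⟩
      rw [map_zero]
      apply Subtype.ext
      exact (y.2 (by simpa using hB)).symm

end Q29.NT
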