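import Pool.Agent.Q29.NT.Int

/-!
# The counterexample
-/

open CategoryTheory CategoryTheory.Limits

namespace Q29.NT

/-- The points of the poset. -/
abbrev p00 : J := J.mk 0 0
/-- A point. -/
abbrev p01 : J := J.mk 0 1
/-- A point. -/
abbrev p02 : J := J.mk 0 2
/-- A point. -/
abbrev p10 : J := J.mk 1 0
/-- A point. -/
abbrev p11 : J := J.mk 1 1
/-- A point. -/
abbrev p12 : J := J.mk 1 2
/-- A point. -/
abbrev p21 : J := J.mk 2 1
/-- A point. -/
abbrev p22 : J := J.mk 2 2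

theorem l1 : p00 ≤ p01 := by decide
theorem l2 : p01 ≤ p12 := by decide
theorem l3 : p12 ≤ p22 := by decide

/-- The subcategory: `V` vanishes at `p10` and `p21`, and `0 → V00 → V01 → V12 → V22 → 0` is
exact. -/
structure X (V : D) : Prop where
  z1 : ∀ x : V.obj p10, x = 0
  z2 : ∀ x : V.obj p21, x = 0
  c0 : ∀ x : V.obj p00, tr V l1 x = 0 → x = 0
  c1 : ∀ x : V.obj p01, tr V l2 x = 0 → ∃ y, tr V l1 y = x
  c2 : ∀ x : V.obj p12, tr V l3 x = 0 → ∃ y, tr V l2 y = x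
  c3 : ∀ x : V.obj p22, ∃ y, tr V l3 y = x

theorem z_00_11 {V : D} (h : ∀ x : V.obj p10, x = 0) (x : V.obj p00) (l : p00 ≤ p11) :
    tr V l x = 0 := by
  rw [← tr_tr V (show p00 ≤ p10 by decide) (show p10 ≤ p11 by decide) x, h (tr V _ x), map_zero]

theorem z_00_12 {V : D} (h : ∀ x : V.obj p10, x = 0) (x : V.obj p00) :
    tr V l2 (tr V l1 x) = 0 := by
  rw [tr_tr, ← tr_tr V (show p00 ≤ p10 by decide) (show p10 ≤ p12 by decide) x, h (tr V _ x),
    map_zero]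

theorem z_11_22 {V : D} (h : ∀ x : V.obj p21, x = 0) (x : V.obj p11) (l : p11 ≤ p12) :
    tr V l3 (tr V l x) = 0 := by
  rw [tr_tr, ← tr_tr V (show p11 ≤ p21 by decide) (show p21 ≤ p22 by decide) x, h (tr V _ x),
    map_zero]

theorem z_01_22 {V : D} (h : ∀ x : V.obj p21, x = 0) (x : V.obj p01) :
    tr V l3 (tr V l2 x) = 0 := by
  rw [tr_tr, ← tr_tr V (show p01 ≤ p21 by decide) (show p21 ≤ p22 by decide) x, h (tr V _ x),
    map_zero]

theorem X_ext (S : ShortComplex D) (hS : S.ShortExact) (h1 : X S.X₁) (h3 : X S.X₃) : X S.X₂ := by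
  have hmono : Mono S.f := hS.mono_f
  have hepi : Epi S.g := hS.epi_g
  have hi := fun j => mono_elt S.f j
  have hp := fun j => epi_elt S.g j
  have hz : ∀ (j : J) (x : S.X₁.obj j), ap S.g j (ap S.f j x) = 0 :=
    fun j x => ap_zero_of_comp S.zero j x
  have he : ∀ (j : J) (x : S.X₂.obj j), ap S.g j x = 0 → ∃ y, ap S.f j y = x :=
    fun j x hx => exact_elt hS.exact j x hx
  have z1 : ∀ x : S.X₂.obj p10, x = 0 := by
    intro x
    obtain ⟨y, rfl⟩ := he _ x (h3.z1 _)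
    rw [h1.z1 y, map_zero]
  have z2 : ∀ x : S.X₂.obj p21, x = 0 := by
    intro x
    obtain ⟨y, rfl⟩ := he _ x (h3.z2 _)
    rw [h1.z2 y, map_zero]
  refine ⟨z1, z2, fun x hx => ?_, fun x hx => ?_, fun x hx => ?_, fun x => ?_⟩
  · have h4 : ap S.g p00 x = 0 := by
      apply h3.c0
      rw [← ap_tr, hx, map_zero]
    obtain ⟨y, rfl⟩ := he _ x h4
    rw [← ap_tr] at hx
    have h5 : tr S.X₁ l1 y = 0 := hi _ (by rw [hx, map_zero])
    rw [h1.c0 y h5, map_zero]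
  · obtain ⟨w, hw⟩ := h3.c1 (ap S.g p01 x) (by rw [← ap_tr, hx, map_zero])
    obtain ⟨v, rfl⟩ := hp _ w
    obtain ⟨u, hu⟩ := he _ (x - tr S.X₂ l1 v) (by rw [map_sub, ap_tr, hw, sub_self])
    have h5 : tr S.X₁ l2 u = 0 := hi _ (by
      rw [ap_tr, hu, map_sub, hx, z_00_12 z1, sub_self, map_zero])
    obtain ⟨u', rfl⟩ := h1.c1 u h5
    refine ⟨v + ap S.f _ u', ?_⟩
    rw [map_add, ← ap_tr, hu, add_sub_cancel]
  · obtain ⟨w, hw⟩ := h3.c2 (ap S.g p12 x) (by rw [← ap_tr, hx, map_zero])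
    obtain ⟨v, rfl⟩ := hp _ w
    obtain ⟨u, hu⟩ := he _ (x - tr S.X₂ l2 v) (by rw [map_sub, ap_tr, hw, sub_self])
    have h5 : tr S.X₁ l3 u = 0 := hi _ (by
      rw [ap_tr, hu, map_sub, hx, z_01_22 z2, sub_self, map_zero])
    obtain ⟨u', rfl⟩ := h1.c2 u h5
    refine ⟨v + ap S.f _ u', ?_⟩
    rw [map_add, ← ap_tr, hu, add_sub_cancel]
  · obtain ⟨w, hw⟩ := h3.c3 (ap S.g p22 x)
    obtain ⟨v, rfl⟩ := hp _ w
    obtain ⟨u, hu⟩ := he _ (x - tr S.X₂ l3 v) (by rw [map_sub, ap_tr, hw, sub_self])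
    obtain ⟨u', rfl⟩ := h1.c3 u
    refine ⟨v + ap S.f _ u', ?_⟩
    rw [map_add, ← ap_tr, hu, add_sub_cancel]

theorem X_ker {M A B Z : D} (i : M ⟶ A) (f : A ⟶ B) (g : B ⟶ Z) (hi : Mono i)
    (hif : i ≫ f = 0) (hfg : f ≫ g = 0) (e1 : (ShortComplex.mk i f hif).Exact)
    (e2 : (ShortComplex.mk f g hfg).Exact) (hA : X A) (hB : X B) (hZ : X Z) : X M := by
  have hi' := fun j => mono_elt i j
  have hzif : ∀ (j : J) (x : M.obj j), ap f j (ap i j x) = 0 := fun j x => ap_zero_of_comp hif j x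
  have hzfg : ∀ (j : J) (x : A.obj j), ap g j (ap f j x) = 0 := fun j x => ap_zero_of_comp hfg j x
  have hE1 : ∀ (j : J) (x : A.obj j), ap f j x = 0 → ∃ y, ap i j y = x :=
    fun j x hx => exact_elt e1 j x hx
  have hE2 : ∀ (j : J) (x : B.obj j), ap g j x = 0 → ∃ y, ap f j y = x :=
    fun j x hx => exact_elt e2 j x hx
  have l : p01 ≤ p11 := by decide
  have l' : p11 ≤ p12 := by decide
  have l'' : p00 ≤ p11 := by decide
  refine ⟨fun x => ?_, fun x => ?_, fun x hx => ?_, fun x hx => ?_, fun x hx => ?_, fun x => ?_⟩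
  · exact hi' _ (by rw [hA.z1 (ap i _ x), map_zero])
  · exact hi' _ (by rw [hA.z2 (ap i _ x), map_zero])
  · exact hi' _ (by rw [map_zero]; exact hA.c0 _ (by rw [← ap_tr, hx, map_zero]))
  · obtain ⟨y, hy⟩ := hA.c1 (ap i _ x) (by rw [← ap_tr, hx, map_zero])
    have h1 : ap f _ y = 0 := hB.c0 _ (by rw [← ap_tr, hy, hzif])
    obtain ⟨y', rfl⟩ := hE1 _ y h1
    exact ⟨y', hi' _ (by rw [ap_tr, hy])⟩
  · obtain ⟨y, hy⟩ := hA.c2 (ap i _ x) (by rw [← ap_tr, hx, map_zero])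
    obtain ⟨y1, hy1⟩ := hB.c1 (ap f _ y) (by rw [← ap_tr, hy, hzif])
    have h2 : ap g _ y1 = 0 := hZ.c0 _ (by rw [← ap_tr, hy1, hzfg])
    obtain ⟨y2, rfl⟩ := hE2 _ y1 h2
    obtain ⟨y', hy'⟩ := hE1 _ (y - tr A l1 y2) (by rw [map_sub, ap_tr, hy1, sub_self])
    exact ⟨y', hi' _ (by rw [ap_tr, hy', map_sub, hy, z_00_12 hA.z1, sub_zero])⟩
  · obtain ⟨y, hy⟩ := hA.c3 (ap i _ x)
    obtain ⟨y1, hy1⟩ := hB.c2 (ap f _ y) (by rw [← ap_tr, hy, hzif])
    obtain ⟨y2, hy2⟩ := hZ.c1 (ap g _ y1) (by rw [← ap_tr, hy1, hzfg])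
    have h3 : ap g _ (tr B l y1) = 0 := by
      rw [ap_tr, ← hy2, tr_tr]
      exact z_00_11 hZ.z1 y2 _
    obtain ⟨z, hz⟩ := hE2 _ (tr B l y1) h3
    obtain ⟨w, hw⟩ := hA.c2 (tr A l' z) (z_11_22 hA.z2 z l')
    have h4 : ap f _ (y - tr A l2 w) = 0 := by
      rw [map_sub, hw, ap_tr, hz, tr_tr, ← hy1, sub_self]
    obtain ⟨y', hy'⟩ := hE1 _ _ h4
    exact ⟨y', hi' _ (by rw [ap_tr, hy', map_sub, hy, z_01_22 hA.z2, sub_zero])⟩

/-- The zero functor. -/
def Z0 : D := intv ⟨fun _ => false, by intro i j k _ _ h _; cases h⟩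

theorem Z0_elt (j : J) (x : Z0.obj j) : x = 0 := val_false (x := x)

theorem isZero_Z0 : IsZero Z0 := by
  refine Functor.isZero _ (fun j => ?_)
  rw [ModuleCat.isZero_iff_subsingleton]
  exact ⟨fun x y => (Z0_elt j x).trans (Z0_elt j y).symm⟩

theorem X_Z0 : X Z0 :=
  ⟨Z0_elt _, Z0_elt _, fun x _ => Z0_elt _ x, fun _ _ => ⟨0, (Z0_elt _ _).trans (Z0_elt _ _).symm⟩,
    fun _ _ => ⟨0, (Z0_elt _ _).trans (Z0_elt _ _).symm⟩,
    fun _ => ⟨0, (Z0_elt _ _).trans (Z0_elt _ _).symm⟩⟩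

theorem X_iso : ObjectProperty.IsClosedUnderIsomorphisms (X : ObjectProperty D) where
  of_iso {V W} e hV := by
    have hm : Mono e.inv := inferInstance
    have z1 : e.inv ≫ (0 : V ⟶ Z0) = 0 := by simp
    have z2 : (0 : V ⟶ Z0) ≫ (0 : Z0 ⟶ Z0) = 0 := by simp
    refine X_ker e.inv (0 : V ⟶ Z0) (0 : Z0 ⟶ Z0) hm z1 z2 ?_ ?_ hV X_Z0 X_Z0
    · rw [ShortComplex.exact_iff_epi _ rfl]
      change Epi e.inv
      infer_instance
    · exact ShortComplex.exact_of_isZero_X₂ _ isZero_Z0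

theorem X_isKEClosed : IsKEClosed 2 (X : ObjectProperty D) where
  iso := X_iso
  ext := X_ext
  ker S hS hm hX := X_ker (S.map' 0 1) (S.map' 1 2) (S.map' 2 3) hm (hS.toIsComplex.zero 0)
    (hS.toIsComplex.zero 1) (hS.exact 0) (hS.exact 1) (hX 1 (by decide)) (hX 2 (by decide))
    (hX 3 (by decide))

/-- The convex subsets. -/
def S1 : Cvx := ⟨fun i => decide (i = p01), by decide⟩
/-- A convex subset. -/
def S0 : Cvx := ⟨fun i => decide (i = p00), by decide⟩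
/-- A convex subset. -/
def S01 : Cvx := ⟨fun i => decide (i = p00 ∨ i = p01), by decide⟩
/-- A convex subset. -/
def S2 : Cvx := ⟨fun i => decide (i = p02 ∨ i = p11), by decide⟩
/-- A convex subset. -/
def S12 : Cvx := ⟨fun i => decide (i = p01 ∨ i = p02 ∨ i = p11), by decide⟩
/-- A convex subset. -/
def S123 : Cvx := ⟨fun i => decide (i = p01 ∨ i = p02 ∨ i = p11 ∨ i = p12), by decide⟩
/-- A convex subset. -/
def S3 : Cvx := ⟨fun i => decide (i = p12), by decide⟩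
/-- A convex subset. -/
def S34 : Cvx := ⟨fun i => decide (i = p12 ∨ i = p22), by decide⟩
/-- A convex subset. -/
def S4 : Cvx := ⟨fun i => decide (i = p22), by decide⟩

theorem intv_zero (S : Cvx) (j : J) (h : S.s j = false) (x : (intv S).obj j) : x = 0 :=
  Subtype.ext (x.2 h)

theorem tr_eq (S : Cvx) {i j : J} (l : i ≤ j) (x : (intv S).obj i) (hj : S.s j = true) :
    (tr (intv S) l x).1 = x.1 := if_pos hj

theorem tr_surj (S : Cvx) {i j : J} (l : i ≤ j) (hi : S.s i = true) (x : (intv S).obj j) :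
    ∃ y, tr (intv S) l y = x := by
  refine ⟨⟨x.1, fun h => ?_⟩, ?_⟩
  · rw [hi] at h; cases h
  · apply Subtype.ext
    change (if S.s j = true then x.1 else 0) = x.1
    by_cases hj : S.s j = true
    · rw [if_pos hj]
    · rw [if_neg hj]
      exact (x.2 (by simpa using hj)).symm

theorem X_S01 : X (intv S01) :=
  ⟨intv_zero _ _ (by decide), intv_zero _ _ (by decide),
    fun x hx => Subtype.ext ((tr_eq S01 l1 x (by decide)).symm.trans (congrArg Subtype.val hx)),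
    fun x _ => tr_surj _ _ (by decide) x,
    fun x _ => ⟨0, by rw [map_zero, intv_zero _ _ (by decide) x]⟩,
    fun x => ⟨0, by rw [map_zero, intv_zero _ _ (by decide) x]⟩⟩

theorem X_S2 : X (intv S2) :=
  ⟨intv_zero _ _ (by decide), intv_zero _ _ (by decide),
    fun x _ => intv_zero _ _ (by decide) x,
    fun x _ => ⟨0, by rw [map_zero, intv_zero _ _ (by decide) x]⟩,
    fun x _ => ⟨0, by rw [map_zero, intv_zero _ _ (by decide) x]⟩,
    fun x => ⟨0, by rw [map_zero, intv_zero _ _ (by decide) x]⟩⟩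

theorem X_S123 : X (intv S123) :=
  ⟨intv_zero _ _ (by decide), intv_zero _ _ (by decide),
    fun x _ => intv_zero _ _ (by decide) x,
    fun x hx => ⟨0, by
      rw [map_zero]
      exact Subtype.ext ((congrArg Subtype.val hx).symm.trans (tr_eq S123 l2 x (by decide)))⟩,
    fun x _ => tr_surj _ _ (by decide) x,
    fun x => ⟨0, by rw [map_zero, intv_zero _ _ (by decide) x]⟩⟩

theorem X_S34 : X (intv S34) :=
  ⟨intv_zero _ _ (by decide), intv_zero _ _ (by decide),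
    fun x _ => intv_zero _ _ (by decide) x,
    fun x _ => ⟨0, by rw [map_zero, intv_zero _ _ (by decide) x]⟩,
    fun x hx => ⟨0, by
      rw [map_zero]
      exact Subtype.ext ((congrArg Subtype.val hx).symm.trans (tr_eq S34 l3 x (by decide)))⟩,
    fun x => tr_surj _ _ (by decide) x⟩

theorem not_X_S4 : ¬ X (intv S4) := by
  intro h
  obtain ⟨y, hy⟩ := h.c3 ⟨1, fun h => by revert h; decide⟩
  rw [intv_zero S4 _ (by decide) y, map_zero] at hy
  have := congrArg Subtype.val hy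
  change (0 : ℤ) = 1 at this
  omega

theorem not_isNFoldTorsionFree : ¬ IsNFoldTorsionFree 3 (X : ObjectProperty D) := by
  rintro ⟨F, h0, h3, hF⟩
  have t1 := hF 0 (by norm_num)
  have t2 := hF 1 (by norm_num)
  have t3 := hF 2 (by norm_num)
  rw [h3] at t3
  rw [h0] at t1
  change IsTorsionFreeClass (F 1) (F 2) at t2
  change IsTorsionFreeClass ⊤ (F 1) at t1
  have hX2 : ∀ V : D, X V → F 2 V := fun V hV => t3.le V hV
  have hX1 : ∀ V : D, X V → F 1 V := fun V hV => t2.le V (hX2 V hV)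
  have htop : ∀ V : D, (⊤ : ObjectProperty D) V := fun V => trivial
  obtain ⟨E1, e1, a1, b1, c1⟩ := exists_ses S1 S01 S0 (by decide) (by decide) (by decide)
  obtain ⟨E2, e2, a2, b2, c2⟩ := exists_ses S2 S12 S1 (by decide) (by decide) (by decide)
  obtain ⟨E3, e3, a3, b3, c3⟩ := exists_ses S3 S123 S12 (by decide) (by decide) (by decide)
  obtain ⟨E4, e4, a4, b4, c4⟩ := exists_ses S4 S34 S3 (by decide) (by decide) (by decide)
  have k1 : F 1 (intv S1) := by
    rw [← a1]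
    exact t1.sub E1 e1 (htop _) (htop _) (htop _) (by rw [b1]; exact hX1 _ X_S01)
  have k2 : F 1 (intv S12) := by
    rw [← b2]
    exact t1.ext E2 e2 (htop _) (htop _) (htop _) (by rw [a2]; exact hX1 _ X_S2)
      (by rw [c2]; exact k1)
  have k3 : F 1 (intv S3) := by
    rw [← a3]
    exact t1.sub E3 e3 (htop _) (htop _) (htop _) (by rw [b3]; exact hX1 _ X_S123)
  have k4 : F 1 (intv S4) := by
    rw [← a4]
    exact t1.sub E4 e4 (htop _) (htop _) (htop _) (by rw [b4]; exact hX1 _ X_S34)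
  have k5 : F 2 (intv S3) := by
    rw [← a3]
    exact t2.sub E3 e3 (by rw [a3]; exact k3) (by rw [b3]; exact hX1 _ X_S123)
      (by rw [c3]; exact k2) (by rw [b3]; exact hX2 _ X_S123)
  have k6 : F 2 (intv S4) := by
    rw [← a4]
    exact t2.sub E4 e4 (by rw [a4]; exact k4) (by rw [b4]; exact hX1 _ X_S34)
      (by rw [c4]; exact k3) (by rw [b4]; exact hX2 _ X_S34)
  have k7 : X (intv S4) := by
    rw [← a4]
    exact t3.sub E4 e4 (by rw [a4]; exact k6) (by rw [b4]; exact hX2 _ X_S34)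
      (by rw [c4]; exact k5) (by rw [b4]; exact X_S34)
  exact not_X_S4 k7

end Q29.NT
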